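import Pool.Agent.H23.Bis2

/-! `β(c) = 1/√8` for every `c ≥ √2`. -/

open Pool.Agent.H23.Bis

theorem Pool.Agent.Results.MP_279640_co.Beta.result {c : ℝ} (hc : √2 ≤ c) :
    beta c = ((1 / √8 : ℝ) : EReal) := main hc
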